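import Pool.Agent.ETC92.Tow
import Pool.Agent.GoReal.Small
import Pool.Agent.KRad.Min.DownE0

/-!
# Fields with many square classes and bounded ranks are of local type; exact pairs end in
# fields of local type or group extensions
-/

namespace Pool.Agent.ETC92

open Pool.Agent.Hhelper2 Pool.Agent.Hhelper2.QuadExt Pool.Agent.Hhelper2.Tower Pool.Agent.KRad
open Additive Module Pool.Agent.GoReal

universe u

/-- If all ranks are at most `r` and there are many square classes, then a field without
independent pairs is of local type. -/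
theorem isLocal_of_bound {K : Type u} [Field K] (h2 : (2 : K) ≠ 0) [Finite (SqClass K)]
    (hK : Conn K) {r : ℕ} (hr : ∀ x : VV K, sv K x ≤ r)
    (hbig : SmallEl.cbound (2 ^ r) < 2 ^ dd K) : (QStr.ofField K).IsLocal := by
  have hax := QStr.ofField_axioms K h2
  have hP := (conn_iff K h2).1 hK
  have h11 : (QStr.ofField K).Split 1 1 := hax.one 1
  have hcardV : Nat.card (SqClass K) = 2 ^ dd K := card_VV
  have hpos : 0 < SmallEl.cbound (2 ^ r) := by
    unfold SmallEl.cbound
    positivity
  have hnt : ¬ Subsingleton (QStr.ofField K).G := by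
    intro h
    have h1 : Nat.card (SqClass K) = 1 := Nat.card_unique (α := (QStr.ofField K).G)
    omega
  have hs : ∀ a : SqClass K,
      Nat.card (SqClass K) ≤ 2 ^ r * Nat.card {b : SqClass K // FieldSplit K a b} := by
    intro a
    have h1 : Nat.card {b : SqClass K // FieldSplit K a b} = 2 ^ (dd K - sv K (ofMul a)) :=
      dg_eq_pow h2 (ofMul a)
    have h3 := sv_le h2 (ofMul a)
    have h4 := hr (ofMul a)
    rw [h1, hcardV, ← pow_add]
    exact Nat.pow_le_pow_right (by norm_num) (by omega)
  obtain ⟨Q, _, _, _, V', _, _, _, β', e', κ, _, E, ι, _, L, R, hG, hnd, hs', hr', hE, hL, hR, -,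
    ⟨f⟩, hb⟩ := SmallEl.main_decomp K h2 (2 ^ r) hs
  have hcard := hb (2 ^ r) hs
  rcases prime_prod hP h11 f with hf | hf
  · obtain ⟨f⟩ := hf
    exfalso
    rcases prime_prod hP h11 f with hf | hf
    · obtain ⟨f⟩ := hf
      have h3 : Nat.card (SqClass K) = _ := Nat.card_congr f.e.toEquiv
      omega
    · -- totally split
      obtain ⟨f⟩ := hf
      apply hnt
      constructor
      intro x y
      have h3 : ∀ x : (QStr.ofField K).G, x = 1 := by
        intro x
        have h4 : ∀ c, (QStr.ofField K).Split x c := fun c => (f.map_split _ _).2 (hR _ _)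
        exact hP.1 _ h4
      rw [h3 x, h3 y]
  · obtain ⟨f⟩ := hf
    rcases prime_pi hP h11 _ f with h | ⟨i, ⟨h⟩⟩
    · exact absurd h hnt
    · exact isLocal_congr h (hL i)

variable {K : Type u} [Field K] {T : ℕ → (E : Type u) → [Field E] → Prop}

/-- An exact pair leads to a field of local type or to a group extension. -/
theorem locExt_of_exact (hT : TCl K T) (hg : Good1 K) {x : VV K} (hx : x ≠ 0)
    (hex : Exact1 K T (sv K x)) :
    ∃ (n : ℕ) (E : Type u) (_ : Field E), T n E ∧ Good1 E ∧ LocExt E := by
  have := hg.fin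
  have hlt := sv_lt hg.two (K := K) (x := x) (by rw [hg.ee_eq]; exact hx)
  rcases Nat.lt_or_ge (sv K x + 1) (dd K) with h | h
  · -- the number of square classes grows
    obtain ⟨c, hc⟩ : ∃ c, c = SmallEl.cbound (2 ^ (2 * sv K x)) := ⟨_, rfl⟩
    obtain ⟨E, _, z, hz⟩ := exists_ex hT hg hx hex c
    generalize sv K x = r at *
    have := hz.good.fin
    refine ⟨c, E, inferInstance, hz.mem, hz.good, Or.inl ?_⟩
    refine isLocal_of_bound hz.good.two hz.good.conn (fun y => hz.sv_le hT hex y) ?_
    have h1 := hz.dd_eq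
    have h3 : 2 ^ c * (2 + r) ≤ 2 ^ c * dd K := Nat.mul_le_mul_left _ (by omega)
    have h4 : 2 ^ c * (2 + r) = 2 ^ c * (1 + r) + 2 ^ c := by ring
    have h5 : c < 2 ^ c := Nat.lt_two_pow_self
    have h6 : c < dd E := by omega
    have h7 : dd E < 2 ^ dd E := Nat.lt_two_pow_self
    rw [← hc]
    omega
  · -- a rigid class
    refine ⟨0, K, inferInstance, hT.base, hg, ?_⟩
    have h1 : sv K x + 1 = dd K := by omega
    have h3 := (rigid_iff hg.two (by rw [hg.ee_eq]; exact hx)).1 h1
    refine locExt_of_rig hg.two hg.neg hx ?_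
    intro y hy
    have h4 := (h3 y).1 hy
    rw [add_comm] at h4
    exact h4

end Pool.Agent.ETC92
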