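import Pool.Agent.ETC92.Quad2

/-!
# From an exact pair over a tower of quadratic extensions to the input of the assembly
-/

namespace Pool.Agent.ETC92

open Pool.Agent.Hhelper2 Pool.Agent.Hhelper2.QuadExt Pool.Agent.Hhelper2.Tower Pool.Agent.KRad
open Additive Module Pool.Agent.GoReal Polynomial

universe u

/-- Quadratic ring homomorphisms of fields. -/
def IsQ {L M : Type u} [Field L] [Field M] (g : L →+* M) : Prop :=
  ∃ (a : L) (α : M), (¬ ∃ t : L, a = t ^ 2) ∧ α ^ 2 = g a ∧ ∀ m : M, ∃ x y : L, m = g x + g y * α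

/-- Towers of quadratic extensions with the embedding and the number of steps. -/
inductive TwoTower' (K : Type u) [Field K] : (L : Type u) → [Field L] → (K →+* L) → ℕ → Prop
  | refl : TwoTower' K K (RingHom.id K) 0
  | step (L M : Type u) [Field L] [Field M] (f : K →+* L) (n : ℕ) (g : L →+* M) :
      TwoTower' K L f n → IsQ g → TwoTower' K M (g.comp f) (n + 1)

theorem IsQ.finrank {L M : Type u} [Field L] [Field M] [Algebra L M] (h : IsQ (algebraMap L M)) :
    finrank L M = 2 := by
  obtain ⟨a, α, hns, hα, hs⟩ := h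
  exact finrank_of_span a α hα hns hs

theorem TwoTower'.quadTower {K L : Type u} [Field K] [Field L] {f : K →+* L} {n : ℕ}
    (h : TwoTower' K L f n) : QuadTower K L := by
  induction h with
  | refl => exact QuadTower.base
  | step L M f n g hL hg ih =>
    let _ : Algebra L M := g.toAlgebra
    exact QuadTower.step L M ih (IsQ.finrank hg)

/-- Towers compose. -/
theorem QuadTower.trans {F K : Type u} [Field F] [Field K] (hK : QuadTower F K) {L : Type u}
    [Field L] (h : QuadTower K L) : QuadTower F L := by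
  induction h with
  | base => exact hK
  | step L M hL hg ih => exact QuadTower.step L M ih hg

/-- The class of all towers of quadratic extensions. -/
theorem tcl_tower (K : Type u) [Field K] (P : ℕ → (E : Type u) → [Field E] → Prop) (h0 : P 0 K)
    (hs : ∀ (n : ℕ) (E M : Type u) [Field E] [Field M] (g : E →+* M), P n E → IsQ g →
      P (n + 1) M) :
    TCl K P where
  base := h0
  step := by
    intro n E _ hg hE a ha
    obtain ⟨a₀, rfl⟩ := exists_rep a
    have hns : ¬ ∃ t : E, (a₀ : E) = t ^ 2 := fun h => ha ((one_iff a₀).2 h)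
    obtain ⟨M, _, _, α, hα, hsp⟩ := exists_quad E (a₀ : E) hns
    have hQ : IsQ (algebraMap E M) := ⟨a₀, α, hns, hα, hsp⟩
    obtain ⟨q, -, -⟩ := exists_QS hg.two hQ.finrank a₀ α hα hns
    exact ⟨M, inferInstance, ⟨q⟩, hs n E M _ hE hQ⟩

/-- The input of the assembly from an exact pair. -/
theorem exists_locExt_of_exact (F : Type u) [Field F] (h2 : (2 : F) ≠ 0)
    (hf : Finite (SqClass F)) (hi : ∃ i : F, i ^ 2 = -1) (hF : Conn F)
    (K : Type u) [Field K] (hK : QuadTower F K)
    (P : ℕ → (E : Type u) → [Field E] → Prop) (h0 : P 0 K)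
    (hs : ∀ (n : ℕ) (E M : Type u) [Field E] [Field M] (g : E →+* M), P n E → IsQ g →
      P (n + 1) M)
    (hPK : ∀ (n : ℕ) (E : Type u) [Field E], P n E → QuadTower K E)
    (x : VV K) (hx : x ≠ 0)
    (hex : ∀ (n : ℕ) (E : Type u) [Field E], P n E → (dd K - 1 - sv K x) * 2 ^ n + 1 ≤ dd E) :
    ∃ (E : Type u) (_ : Field E), QuadTower F E ∧ LocExt E := by
  obtain ⟨h3, h4, h5, h6⟩ := quadTower F h2 hf K hK
  obtain ⟨⟨i, hi'⟩, -⟩ := h6 hi
  have hg : Good1 K := ⟨h3, h4, (one_iff _).2 ⟨i, by rw [hi']; simp⟩, h5 hF⟩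
  have hlt := sv_lt hg.two (K := K) (x := x) (by rw [hg.ee_eq]; exact hx)
  obtain ⟨n, E, _, hE, -, hloc⟩ := locExt_of_exact (tcl_tower K P h0 hs) hg hx (by
    intro n E _ hgE hE
    have h7 := hex n E hE
    have h8 : dd K = (dd K - 1 - sv K x) + (1 + sv K x) := by omega
    have h9 : 2 ^ n * dd K = (dd K - 1 - sv K x) * 2 ^ n + 2 ^ n * (1 + sv K x) := by
      conv_lhs => rw [h8]
      ring
    omega)
  exact ⟨E, inferInstance, QuadTower.trans hK (hPK n E hE), hloc⟩

end Pool.Agent.ETC92
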