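import Pool.Agent.ETC92.End

/-!
# The class of the intermediate fields of a quadratically closed extension
-/

namespace Pool.Agent.ETC92

open Pool.Agent.Hhelper2 Pool.Agent.Hhelper2.QuadExt Pool.Agent.Hhelper2.Tower Pool.Agent.KRad
open Additive Module Pool.Agent.GoReal Polynomial IntermediateField

universe u

/-- Adjoining the square root of a nonsquare. -/
theorem finrank_adjoin_sqrt {M Ω : Type u} [Field M] [Field Ω] [Algebra M Ω] (a : M) (α : Ω)
    (hα : α ^ 2 = algebraMap M Ω a) (ha : ¬ ∃ t : M, a = t ^ 2) :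
    finrank M (IntermediateField.adjoin M {α}) = 2 := by
  have hmon : (X ^ 2 - C a : M[X]).Monic := monic_X_pow_sub_C a (by norm_num)
  have hroot : aeval α (X ^ 2 - C a : M[X]) = 0 := by
    rw [map_sub, map_pow, aeval_X, aeval_C, hα, sub_self]
  have hint : IsIntegral M α := ⟨X ^ 2 - C a, hmon, hroot⟩
  have h1 : finrank M (IntermediateField.adjoin M {α}) = (minpoly M α).natDegree :=
    IntermediateField.adjoin.finrank hint
  have h2 : (minpoly M α).natDegree ≤ 2 := by
    have h3 := natDegree_le_of_dvd (minpoly.dvd M α hroot) hmon.ne_zero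
    have h4 : (X ^ 2 - C a : M[X]).natDegree = 2 := natDegree_X_pow_sub_C
    omega
  have h3 : 0 < (minpoly M α).natDegree := minpoly.natDegree_pos hint
  have h4 : finrank M (IntermediateField.adjoin M {α}) ≠ 1 := by
    intro h
    rw [IntermediateField.finrank_adjoin_simple_eq_one_iff, IntermediateField.mem_bot] at h
    obtain ⟨t, ht⟩ := h
    apply ha
    refine ⟨t, ?_⟩
    apply (algebraMap M Ω).injective
    rw [map_pow, ht, hα]
  omega

/-- The number of square classes is invariant under isomorphisms. -/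
theorem dd_congr {E M : Type u} [Field E] [Field M] (e : E ≃+* M) : dd E = dd M := by
  let f : SqClass E →* SqClass M := scMap (Units.map e.toMonoidHom)
  let g : SqClass M →* SqClass E := scMap (Units.map e.symm.toMonoidHom)
  have hgf : ∀ x, g (f x) = x := by
    intro x
    obtain ⟨x, rfl⟩ := exists_rep x
    show sqClass _ = sqClass _
    congr 1
    ext
    simp
  have hfg : ∀ x, f (g x) = x := by
    intro x
    obtain ⟨x, rfl⟩ := exists_rep x
    show sqClass _ = sqClass _
    congr 1
    ext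
    simp
  let F : VV E ≃ₗ[ZMod 2] VV M :=
    { lin f with
      invFun := lin g
      left_inv := hgf
      right_inv := hfg }
  exact F.finrank_eq

/-- The class of the fields isomorphic to an intermediate field of degree `2 ^ n` over `K`, which
are obtained from `F` by a tower of quadratic extensions. -/
def TI (F : Type u) [Field F] (Ω : Type u) [Field Ω] [Algebra F Ω] (K : IntermediateField F Ω)
    (n : ℕ) (E : Type u) [Field E] : Prop :=
  (∃ M : IntermediateField F Ω, K ≤ M ∧ finrank F M = 2 ^ n * finrank F K ∧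
    Nonempty (E ≃+* M)) ∧ QuadTower F E

theorem tcl_TI (F : Type u) [Field F] (Ω : Type u) [Field Ω] [Algebra F Ω]
    (hΩ : ∀ x : Ω, ∃ y : Ω, y ^ 2 = x) (K : IntermediateField F Ω) (hK : QuadTower F K) :
    TCl K (TI F Ω K) where
  base := ⟨⟨K, le_rfl, by simp, ⟨RingEquiv.refl _⟩⟩, hK⟩
  step := by
    rintro n E _ hg ⟨⟨M, hKM, hM, ⟨e⟩⟩, hE⟩ a ha
    obtain ⟨a₀, rfl⟩ := exists_rep a
    have hns : ¬ ∃ t : E, (a₀ : E) = t ^ 2 := fun h => ha ((one_iff a₀).2 h)
    obtain ⟨α, hα⟩ := hΩ (algebraMap M Ω (e a₀))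
    have hns' : ¬ ∃ t : M, e a₀ = t ^ 2 := by
      rintro ⟨t, ht⟩
      apply hns
      refine ⟨e.symm t, ?_⟩
      apply e.injective
      rw [map_pow, e.apply_symm_apply, ht]
    have hfin := finrank_adjoin_sqrt (e a₀) α hα hns'
    set L : IntermediateField M Ω := IntermediateField.adjoin M {α} with hL
    let _ : Algebra E L := ((algebraMap M L).comp e.toRingHom).toAlgebra
    have hfin' : finrank E L = 2 := by
      rw [← hfin]
      exact Algebra.finrank_eq_of_equiv_equiv e (RingEquiv.refl L) (by ext; rfl)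
    have hαL : α ∈ L := IntermediateField.mem_adjoin_simple_self M α
    obtain ⟨q, -, -⟩ := exists_QS hg.two hfin' a₀ ⟨α, hαL⟩
      (by
        apply Subtype.ext
        show α ^ 2 = _
        rw [hα]
        rfl) hns
    refine ⟨L, inferInstance, ⟨q⟩, ⟨⟨L.restrictScalars F, ?_, ?_, ⟨RingEquiv.refl _⟩⟩, ?_⟩⟩
    · refine hKM.trans ?_
      intro x hx
      rw [IntermediateField.mem_restrictScalars]
      exact L.algebraMap_mem ⟨x, hx⟩
    · have h1 : finrank F (L.restrictScalars F) = finrank F L := rfl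
      rw [h1, ← finrank_mul_finrank F M L, hfin, hM]
      ring
    · exact QuadTower.step E L hE hfin'

/-- An exact pair among the intermediate fields of a quadratically closed extension gives a tower
of quadratic extensions ending in a field of local type or in a group extension. -/
theorem exists_locExt (F : Type u) [Field F] (h2 : (2 : F) ≠ 0) (hf : Finite (SqClass F))
    (hi : ∃ i : F, i ^ 2 = -1) (hF : Conn F) (Ω : Type u) [Field Ω] [Algebra F Ω]
    (hΩ : ∀ x : Ω, ∃ y : Ω, y ^ 2 = x) (K : IntermediateField F Ω) (hK : QuadTower F K)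
    (x : VV K) (hx : x ≠ 0)
    (hex : ∀ (M : IntermediateField F Ω) (n : ℕ), K ≤ M → finrank F M = 2 ^ n * finrank F K →
      2 ^ n * dd K + 1 ≤ dd M + 2 ^ n * (1 + sv K x)) :
    ∃ (E : Type u) (_ : Field E), QuadTower F E ∧ LocExt E := by
  obtain ⟨h3, h4, h5, h6⟩ := quadTower F h2 hf K hK
  obtain ⟨⟨i, hi'⟩, -⟩ := h6 hi
  have hg : Good1 K := ⟨h3, h4, (one_iff _).2 ⟨i, by rw [hi']; simp⟩, h5 hF⟩
  obtain ⟨n, E, _, ⟨-, hE⟩, -, hloc⟩ := locExt_of_exact (tcl_TI F Ω hΩ K hK) hg hx (by
    rintro n E _ hgE ⟨⟨M, hKM, hM, ⟨e⟩⟩, -⟩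
    have h7 := hex M n hKM hM
    rw [dd_congr e]
    exact h7)
  exact ⟨E, inferInstance, hE, hloc⟩

end Pool.Agent.ETC92
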