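import Pool.Agent.ETC92.PairEnd
import Pool.Agent.EP.Base
import Pool.Agent.EP.Main4
import Pool.Agent.EP.Cyc
import Pool.Agent.EP.Lift
import Pool.Agent.EP.QCEx

/-!
# Fields without independent pairs have a tower of quadratic extensions ending in a field of local
type or a group extension
-/

namespace Pool.Agent.ETC92

open Pool.Agent.Hhelper2 Pool.Agent.Hhelper2.QuadExt Pool.Agent.Hhelper2.Tower Pool.Agent.KRad
open Additive Module Pool.Agent.GoReal Polynomial Pool.Agent.EP

universe u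

/-- The dimension function of the Galois group of the quadratic closure. -/
theorem fieldLike (F Ω : Type u) [Field F] [Field Ω] [Algebra F Ω] [QC F Ω] (h2 : (2 : F) ≠ 0)
    [Finite (SqClass F)] (hi : ∃ i : F, i ^ 2 = -1) (h1 : ∃ a : SqClass F, a ≠ 1) :
    FieldLike (galS F Ω) where
  bq := fun h0 h1 h2' h3 l1 l2 l3 r1 r2 r3 n12 n13 n23 l =>
    bq h2 h0 h1 h2' h3 l1 l2 l3 r1 r2 r3 n12 n13 n23 l
  mono := fun hU hU' h => dd_mono h2 hi hU hU' h
  sub := fun hU hU' h => dd_sub h2 hU hU' h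
  pos := fun hU => one_le_dd h2 hi h1 hU

/-- For fields without independent pairs in which `-1` is a square: some tower of quadratic
extensions ends in a field whose structure is of local type or a group extension. -/
theorem exists_tower_locExt (F : Type u) [Field F] (h2 : (2 : F) ≠ 0) (hf : Finite (SqClass F))
    (hi : ∃ i : F, i ^ 2 = -1) (hF : Conn F) (hnt : Nontrivial (SqClass F)) :
    ∃ (E : Type u) (_ : Field E), QuadTower F E ∧ LocExt E := by
  obtain ⟨Ω, _, _, _⟩ := exists_QC F h2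
  have h1 : ∃ a : SqClass F, a ≠ 1 := exists_ne 1
  obtain ⟨K, hK, hQ, k, hlb, hrk⟩ := exists_base (Ω := Ω) h2 hi h1
  have h2K : (2 : K) ≠ 0 := by
    intro h
    apply h2
    apply (algebraMap F K).injective
    rw [map_ofNat, h, map_zero]
  have hfK : Finite (SqClass K) := finite_sqClass h2 K
  have hiK : ∃ i : K, i ^ 2 = -1 := by
    obtain ⟨i, hi⟩ := hi
    refine ⟨algebraMap F K i, ?_⟩
    rw [← map_pow, hi, map_neg, map_one]
  have h1K : ∃ a : SqClass K, a ≠ 1 := by
    have hop : (galS F Ω).Op K.fixingSubgroup := (isOpen_iff_exists _).2 ⟨K, hK, rfl⟩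
    have h3 := one_le_dd h2 hi h1 hop
    rw [dd_eq h2 hop, InfiniteGalois.fixedField_fixingSubgroup] at h3
    by_contra hcon
    push Not at hcon
    have h4 : Subsingleton (VV K) := ⟨fun x y => (hcon (toMul x)).trans (hcon (toMul y)).symm⟩
    have h5 : GoReal.dd K = 0 := finrank_zero_of_subsingleton
    omega
  obtain ⟨h, ⟨d⟩⟩ := exists_data4 (F := K) (Ω := Ω) h2K hiK h1K
  obtain ⟨D, g, hg⟩ := exists_tgen (F := K) (Ω := Ω) h2K
  obtain ⟨U₀, U₃, hU₀, hU₃, hle, hrel, hdd⟩ := exists_exact_group d hg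
    (fieldLike K Ω h2K hiK h1K) hrk hlb
    (fun hU hU' hle hr => edge_ge h2K hiK hlb hU hU' hle hr)
  exact exists_locExt_of_pair F h2 hf hi hF Ω K hlb hU₀ hU₃ hle hrel hdd

end Pool.Agent.ETC92
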