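import Pool.Agent.ETC92.Final2
import Pool.Agent.EP.Kum
import Pool.Agent.EP.Mono

/-!
# From an exact pair of open subgroups to a field of local type or a group extension
-/

namespace Pool.Agent.ETC92

open Pool.Agent.Hhelper2 Pool.Agent.Hhelper2.QuadExt Pool.Agent.Hhelper2.Tower Pool.Agent.KRad
open Additive Module Pool.Agent.GoReal Polynomial Pool.Agent.EP

universe u

/-- The class of the fields isomorphic to an intermediate field of degree `2 ^ n` over `K'`, which
are obtained from `F` by a tower of quadratic extensions. -/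
def TJ (F : Type u) [Field F] {K : Type u} [Field K] (Ω : Type u) [Field Ω] [Algebra K Ω]
    (K' : IntermediateField K Ω) (n : ℕ) (E : Type u) [Field E] : Prop :=
  (∃ M : IntermediateField K Ω, K' ≤ M ∧ finrank K M = 2 ^ n * finrank K K' ∧
    Nonempty (E ≃+* M)) ∧ QuadTower F E

theorem tcl_TJ (F : Type u) [Field F] {K : Type u} [Field K] (Ω : Type u) [Field Ω] [Algebra K Ω]
    (hΩ : ∀ x : Ω, ∃ y : Ω, y ^ 2 = x) (K' : IntermediateField K Ω) (K₀ : Type u) [Field K₀]
    (e₀ : K₀ ≃+* K') (hK : QuadTower F K₀) : TCl K₀ (TJ F Ω K') where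
  base := ⟨⟨K', le_rfl, by simp, ⟨e₀⟩⟩, hK⟩
  step := by
    rintro n E _ hg ⟨⟨M, hKM, hM, ⟨e⟩⟩, hE⟩ a ha
    obtain ⟨a₀, rfl⟩ := exists_rep a
    have hns : ¬ ∃ t : E, (a₀ : E) = t ^ 2 := fun h => ha ((one_iff a₀).2 h)
    obtain ⟨α, hα⟩ := hΩ (algebraMap M Ω (e a₀))
    have hns' : ¬ ∃ t : M, e a₀ = t ^ 2 := by
      rintro ⟨t, ht⟩
      apply hns
      refine ⟨e.symm t, ?_⟩
      apply e.injective
      rw [map_pow, e.apply_symm_apply, ht]
    have hfin := finrank_adjoin_sqrt (e a₀) α hα hns'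
    set L : IntermediateField M Ω := IntermediateField.adjoin M {α} with hL
    let _ : Algebra E L := ((algebraMap M L).comp e.toRingHom).toAlgebra
    have hfin' : finrank E L = 2 := by
      rw [← hfin]
      exact Algebra.finrank_eq_of_equiv_equiv e (RingEquiv.refl L) (by ext; rfl)
    have hαL : α ∈ L := IntermediateField.mem_adjoin_simple_self M α
    obtain ⟨q, -, -⟩ := exists_QS hg.two hfin' a₀ ⟨α, hαL⟩
      (by
        apply Subtype.ext
        show α ^ 2 = _
        rw [hα]
        rfl) hns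
    refine ⟨L, inferInstance, ⟨q⟩, ⟨⟨L.restrictScalars K, ?_, ?_, ⟨RingEquiv.refl _⟩⟩, ?_⟩⟩
    · refine hKM.trans ?_
      intro x hx
      rw [IntermediateField.mem_restrictScalars]
      exact L.algebraMap_mem ⟨x, hx⟩
    · have h1 : finrank K (L.restrictScalars K) = finrank K L := rfl
      rw [h1, ← finrank_mul_finrank K M L, hfin, hM]
      ring
    · exact QuadTower.step E L hE hfin'

/-- The field between, as an extension of degree two. -/
theorem finrank_inclusion {F Ω : Type u} [Field F] [Field Ω] [Algebra F Ω]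
    {K L : IntermediateField F Ω} [FiniteDimensional F K] (h : K ≤ L)
    (hf : finrank F L = 2 * finrank F K) {K₀ : Type u} [Field K₀] (e : K₀ ≃+* K) :
    ∃ (_ : Algebra K₀ L), finrank K₀ L = 2 := by
  have h1 : finrank F K * finrank K (IntermediateField.extendScalars h) = finrank F L := by
    have h3 : finrank F (IntermediateField.extendScalars h) = finrank F L := rfl
    rw [← h3]
    exact finrank_mul_finrank F K (IntermediateField.extendScalars h)
  have hpos : 0 < finrank F K := finrank_pos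
  have h2 : finrank K (IntermediateField.extendScalars h) = 2 := by
    rw [hf, mul_comm 2] at h1
    exact Nat.eq_of_mul_eq_mul_left hpos h1
  let j : L ≃+* IntermediateField.extendScalars h :=
    { toFun := fun x => ⟨x.1, x.2⟩
      invFun := fun x => ⟨x.1, x.2⟩
      left_inv := fun _ => rfl
      right_inv := fun _ => rfl
      map_mul' := fun _ _ => rfl
      map_add' := fun _ _ => rfl }
  refine ⟨((IntermediateField.inclusion h).toRingHom.comp e.toRingHom).toAlgebra, ?_⟩
  let _ : Algebra K₀ L := ((IntermediateField.inclusion h).toRingHom.comp e.toRingHom).toAlgebra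
  rw [← h2]
  exact Algebra.finrank_eq_of_equiv_equiv e j (by ext; rfl)

/-- The fixed field of an open subgroup is obtained by a tower of quadratic extensions. -/
theorem exists_quadTower (F Ω : Type u) [Field F] [Field Ω] [Algebra F Ω] [QC F Ω] (m : ℕ) :
    ∀ U : Subgroup (Ω ≃ₐ[F] Ω), (galS F Ω).Op U → U.index ≤ m →
    ∃ (K₀ : Type u) (_ : Field K₀), Nonempty (K₀ ≃+* IntermediateField.fixedField U) ∧
      QuadTower F K₀ := by
  induction m with
  | zero =>
    intro U hU hm
    obtain ⟨n, hn⟩ := (galS F Ω).idx U hU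
    have : 0 < 2 ^ n := by positivity
    omega
  | succ m ih =>
    intro U hU hm
    by_cases htop : U = ⊤
    · subst htop
      refine ⟨F, inferInstance, ⟨?_⟩, QuadTower.base⟩
      obtain ⟨f1, f2, f3⟩ := finite_fixedField (⊤ : Subgroup (Ω ≃ₐ[F] Ω)) hU
      rw [Subgroup.index_top] at f3
      have hb : IntermediateField.fixedField (⊤ : Subgroup (Ω ≃ₐ[F] Ω)) = ⊥ :=
        IntermediateField.finrank_eq_one_iff.1 f3
      rw [hb]
      exact (IntermediateField.botEquiv F Ω).symm.toRingEquiv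
    · obtain ⟨V, hUV, -, hrel⟩ := exists_relIndex_two (galS F Ω) hU le_top htop
      have hV : (galS F Ω).Op V := (galS F Ω).up U V hU hUV
      have hidx : U.index = 2 * V.index := by
        rw [← Subgroup.relIndex_mul_index hUV, hrel]
      have hVpos : 0 < V.index := by
        obtain ⟨n, hn⟩ := (galS F Ω).idx V hV
        rw [hn]; positivity
      obtain ⟨K₀, _, ⟨e⟩, hK₀⟩ := ih V hV (by omega)
      obtain ⟨f1, f2, f3⟩ := finite_fixedField U hU
      obtain ⟨g1, g2, g3⟩ := finite_fixedField V hV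
      obtain ⟨alg, hfin⟩ := finrank_inclusion
        (IntermediateField.fixedField_antitone (F := F) (E := Ω) hUV) (by rw [f3, g3, hidx]) e
      exact ⟨IntermediateField.fixedField U, inferInstance, ⟨RingEquiv.refl _⟩,
        QuadTower.step K₀ _ hK₀ hfin⟩

/-- An exact pair of open subgroups. -/
theorem exists_locExt_of_pair (F : Type u) [Field F] (h2 : (2 : F) ≠ 0)
    (hf : Finite (SqClass F)) (hi : ∃ i : F, i ^ 2 = -1) (hF : Conn F)
    (Ω : Type u) [Field Ω] [Algebra F Ω] [QC F Ω] (K : IntermediateField F Ω)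
    [FiniteDimensional F K] [QC K Ω] {k : ℕ}
    (hlb : ∀ U, (galS K Ω).Op U → k * U.index + 1 ≤ EP.dd (galS K Ω) U)
    {U₀ U₃ : Subgroup (Ω ≃ₐ[K] Ω)} (h0 : (galS K Ω).Op U₀) (h3 : (galS K Ω).Op U₃)
    (hle : U₃ ≤ U₀) (hrel : U₃.relIndex U₀ = 2)
    (hdd : EP.dd (galS K Ω) U₃ = EP.dd (galS K Ω) U₀ + k * U₀.index) :
    ∃ (E : Type u) (_ : Field E), QuadTower F E ∧ LocExt E := by
  have h2K : (2 : K) ≠ 0 := by
    intro h
    apply h2
    apply (algebraMap F K).injective
    rw [map_ofNat, h, map_zero]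
  have hfK : Finite (SqClass K) := finite_sqClass h2 K
  obtain ⟨f1, f2, f3⟩ := finite_fixedField U₀ h0
  obtain ⟨g1, g2, g3⟩ := finite_fixedField U₃ h3
  rw [dd_eq h2K h0, dd_eq h2K h3] at hdd
  set K' : IntermediateField K Ω := IntermediateField.fixedField U₀ with hK'
  set M' : IntermediateField K Ω := IntermediateField.fixedField U₃ with hM'
  have hidx : U₃.index = 2 * U₀.index := by
    rw [← Subgroup.relIndex_mul_index hle, hrel]
  -- the tower up to `K'`
  have hfd : FiniteDimensional F (K'.restrictScalars F) := by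
    have : FiniteDimensional F K' := FiniteDimensional.trans F K K'
    exact this
  obtain ⟨K₀, _, ⟨e₀⟩, hK₀⟩ := exists_quadTower F Ω _ (K'.restrictScalars F).fixingSubgroup
    ((isOpen_iff_exists _).2 ⟨_, hfd, rfl⟩) le_rfl
  rw [InfiniteGalois.fixedField_fixingSubgroup] at e₀
  have e : K₀ ≃+* K' := e₀
  obtain ⟨h2K₀, hfK₀, hcK₀, hiK₀⟩ := quadTower F h2 hf K₀ hK₀
  obtain ⟨⟨i, hi'⟩, -⟩ := hiK₀ hi
  have hg : Good1 K₀ := ⟨h2K₀, hfK₀, (one_iff _).2 ⟨i, by rw [hi']; simp⟩, hcK₀ hF⟩
  -- the class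
  obtain ⟨alg, hfin⟩ := finrank_inclusion (K := K') (L := M')
    (IntermediateField.fixedField_antitone hle) (by rw [f3, g3, hidx]) e
  obtain ⟨a, α, hα, hns⟩ := exists_sqrt (K := K₀) (E := M') h2K₀ hfin
  obtain ⟨q, -, -⟩ := exists_QS h2K₀ hfin a α hα hns
  have ha : sqClass a ≠ 1 := fun h => hns ((one_iff a).1 h)
  have hd := GoReal.finrank_ext h2K₀ q.toQE ha
  have hdK : GoReal.dd K₀ = GoReal.dd K' := ETC92.dd_congr e
  obtain ⟨n, E, _, ⟨-, hE⟩, -, hloc⟩ := locExt_of_exact
    (tcl_TJ F Ω (QC.sq (F := F)) K' K₀ e hK₀) hg (x := ofMul (sqClass a)) (fun h => ha h) (by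
    rintro n E _ hgE ⟨⟨M, hKM, hM, ⟨eM⟩⟩, -⟩
    have hMfin : FiniteDimensional K M := by
      apply FiniteDimensional.of_finrank_pos
      rw [hM]
      have : 0 < finrank K K' := finrank_pos
      positivity
    have hop : (galS K Ω).Op M.fixingSubgroup := (isOpen_iff_exists _).2 ⟨M, hMfin, rfl⟩
    have h7 := hlb _ hop
    rw [dd_eq h2K hop, InfiniteGalois.fixedField_fixingSubgroup, index_fixingSubgroup, hM, f3] at h7
    rw [ETC92.dd_congr eM]
    have h8 : GoReal.dd K₀ = k * U₀.index + (1 + sv K₀ (ofMul (sqClass a))) := by omega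
    have h9 : 2 ^ n * GoReal.dd K₀ = k * (2 ^ n * U₀.index) +
        2 ^ n * (1 + sv K₀ (ofMul (sqClass a))) := by
      rw [h8]; ring
    omega)
  exact ⟨E, inferInstance, hE, hloc⟩

end Pool.Agent.ETC92
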