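import Pool.Agent.ETC92.Glue

/-!
# Quadratic extensions: existence and degree
-/

namespace Pool.Agent.ETC92

open Pool.Agent.Hhelper2 Pool.Agent.Hhelper2.QuadExt Pool.Agent.Hhelper2.Tower Pool.Agent.KRad
open Additive Module Pool.Agent.GoReal Polynomial

universe u

/-- The degree of a field generated by a square root. -/
theorem finrank_of_span {L M : Type u} [Field L] [Field M] [Algebra L M] (a : L) (α : M)
    (hα : α ^ 2 = algebraMap L M a) (hns : ¬ ∃ t : L, a = t ^ 2)
    (hspan : ∀ m : M, ∃ x y : L, m = algebraMap L M x + algebraMap L M y * α) :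
    finrank L M = 2 := by
  have hs : (⊤ : Submodule L M) ≤ Submodule.span L (Set.range ![1, α]) := by
    rintro m -
    obtain ⟨x, y, rfl⟩ := hspan m
    refine Submodule.add_mem _ ?_ ?_
    · rw [Algebra.algebraMap_eq_smul_one]
      exact Submodule.smul_mem _ _ (Submodule.subset_span ⟨0, rfl⟩)
    · rw [← Algebra.smul_def]
      exact Submodule.smul_mem _ _ (Submodule.subset_span ⟨1, rfl⟩)
  have hli : LinearIndependent L ![1, α] := by
    rw [LinearIndependent.pair_iff]
    intro s t hst
    by_cases ht : t = 0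
    · subst ht
      refine ⟨?_, rfl⟩
      rw [zero_smul, add_zero, ← Algebra.algebraMap_eq_smul_one] at hst
      exact (map_eq_zero _).1 hst
    · exfalso
      apply hns
      refine ⟨-(s / t), ?_⟩
      apply (algebraMap L M).injective
      rw [map_pow, ← hα]
      congr 1
      have ht' : algebraMap L M t ≠ 0 := fun h => ht ((map_eq_zero _).1 h)
      rw [← Algebra.algebraMap_eq_smul_one, Algebra.smul_def] at hst
      rw [map_neg, map_div₀]
      field_simp
      linear_combination hst
  let b : Basis (Fin 2) L M := Basis.mk hli hs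
  rw [finrank_eq_card_basis b, Fintype.card_fin]

/-- Adjoining a square root. -/
theorem exists_quad (E : Type u) [Field E] (a : E) (hns : ¬ ∃ t : E, a = t ^ 2) :
    ∃ (M : Type u) (_ : Field M) (_ : Algebra E M) (α : M), α ^ 2 = algebraMap E M a ∧
      ∀ m : M, ∃ x y : E, m = algebraMap E M x + algebraMap E M y * α := by
  have : Fact (∀ r : E, r ^ 2 ≠ a + 0 * r) := ⟨fun r hr => hns ⟨r, by rw [hr]; ring⟩⟩
  refine ⟨QuadraticAlgebra E a 0, inferInstance, inferInstance, ⟨0, 1⟩, ?_, ?_⟩
  · ext <;> simp [pow_two]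
  · intro m
    refine ⟨m.re, m.im, ?_⟩
    ext <;> simp

end Pool.Agent.ETC92
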