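import Pool.Agent.GoReal.Quad

/-!
# Lifts of a class in a quadratic extension, tight lifts and the tangent lemma
-/

namespace Pool.Agent.ETC92

open Pool.Agent.Hhelper2 Pool.Agent.Hhelper2.QuadExt Pool.Agent.Hhelper2.Tower Pool.Agent.KRad
open Additive Module Pool.Agent.GoReal

universe u

section

variable {K E : Type u} [Field K] [Field E] {a : SqClass K}

/-- If a class whose norm is the class of the extension has the least possible rank, then the
classes split with it and the classes of the base field generate everything. -/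
theorem lift_sup (h2 : (2 : K) ≠ 0) [Finite (SqClass K)] (q : QE K E a) (ha : a ≠ 1)
    {QK QE' : Type*} [AddCommGroup QK] [Module (ZMod 2) QK] [AddCommGroup QE']
    [Module (ZMod 2) QE'] {β : VV K →ₗ[ZMod 2] VV K →ₗ[ZMod 2] QK}
    (hβ : ∀ x y, β x y = 0 ↔ Sp K x y) (haa : β (ofMul a) (ofMul a) = 0)
    {βE : VV E →ₗ[ZMod 2] VV E →ₗ[ZMod 2] QE'}
    (hβE : ∀ x y, βE x y = 0 ↔ Sp E x y) (symmE : ∀ x y, βE x y = βE y x)
    (z : VV E) (hz : lin q.nm z = ofMul a) (h : sv E z ≤ sv K (ofMul a)) :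
    LinearMap.ker (βE z) ⊔ LinearMap.range (lin q.res) = ⊤ := by
  have := finite_ext q
  have hdim := finrank_ext h2 q ha
  set r : VV K →ₗ[ZMod 2] VV E := lin q.res with hr
  have s3 := sv_add_finrank_ker β hβ (ofMul a)
  have s4 := sv_add_finrank_ker βE hβE z
  set Ka : Submodule (ZMod 2) (VV K) := LinearMap.ker (β (ofMul a)) with hKa
  set Kz : Submodule (ZMod 2) (VV E) := LinearMap.ker (βE z) with hKz
  -- classes of the base field split with `z`
  have hle : Kz ⊓ LinearMap.range r ≤ Ka.map r := by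
    rintro y ⟨h1, ⟨x, rfl⟩⟩
    refine ⟨x, ?_, rfl⟩
    have h3 : Sp E (r x) z := (hβE _ _).1 (by rw [symmE]; exact h1)
    have h4 : Sp K x (lin q.nm z) := proj' q h3
    rw [hz] at h4
    exact (hβ _ _).2 (sp_symm h2 h4)
  have e3 : LinearMap.ker r = Submodule.span (ZMod 2) {(ofMul a : VV K)} := by
    ext y
    rw [Submodule.mem_span_singleton]
    constructor
    · intro h
      rcases (res_zero_iff q y).1 h with h3 | h3
      · exact ⟨0, by rw [zero_smul, h3]⟩
      · exact ⟨1, by rw [one_smul, h3]⟩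
    · rintro ⟨c, rfl⟩
      apply (res_zero_iff q _).2
      rcases zmod2_cases c with h3 | h3
      · left; rw [h3, zero_smul]
      · right; rw [h3, one_smul]
  have e4 : finrank (ZMod 2) (LinearMap.ker r) = 1 := by
    rw [e3]
    exact finrank_span_singleton ha
  have f2 := LinearMap.finrank_range_add_finrank_ker r
  have f4 : finrank (ZMod 2) (Ka.map r) + finrank (ZMod 2) (Ka ⊓ LinearMap.ker r :
      Submodule (ZMod 2) (VV K)) = finrank (ZMod 2) Ka := finrank_map_add_inf_ker r Ka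
  have e5 : Ka ⊓ LinearMap.ker r = LinearMap.ker r := by
    apply inf_eq_right.2
    intro y hy
    rcases (res_zero_iff q y).1 hy with h | h
    · rw [h]; exact Submodule.zero_mem _
    · rw [h]; exact haa
  rw [e5, e4] at f4
  rw [e4] at f2
  have f5 := Submodule.finrank_mono hle
  have f6 := Submodule.finrank_sup_add_finrank_inf_eq Kz (LinearMap.range r)
  have f7 : finrank (ZMod 2) (Kz ⊔ LinearMap.range r : Submodule (ZMod 2) (VV E)) ≤
      finrank (ZMod 2) (VV E) := Submodule.finrank_le _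
  have g1 : dd E = finrank (ZMod 2) (VV E) := rfl
  have g2 : dd K = finrank (ZMod 2) (VV K) := rfl
  apply Submodule.eq_top_of_finrank_eq
  omega

/-- The tangent lemma. -/
theorem tangent (h2 : (2 : K) ≠ 0) [Finite (SqClass K)] (q : QE K E a) (ha : a ≠ 1)
    {QK : Type*} [AddCommGroup QK] [Module (ZMod 2) QK]
    {β : VV K →ₗ[ZMod 2] VV K →ₗ[ZMod 2] QK}
    (hβ : ∀ x y, β x y = 0 ↔ Sp K x y) (symm : ∀ x y, β x y = β y x)
    (haa : β (ofMul a) (ofMul a) = 0)
    (ht : ∀ z : VV E, lin q.nm z = ofMul a → sv E z ≤ sv K (ofMul a))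
    (n : VV K) (hn : β (ofMul a) n = 0) (v : VV K) : ∃ t, β n v = β (ofMul a) t := by
  have := finite_ext q
  obtain ⟨QE', _, _, _, βE, hβE, symmE, csE⟩ := exists_symbol E q.two_ne
  set r : VV K →ₗ[ZMod 2] VV E := lin q.res with hr
  set N : VV E →ₗ[ZMod 2] VV K := lin q.nm with hN'
  -- a lift
  obtain ⟨z, hz⟩ : ∃ z : VV E, N z = ofMul a := range_nm' q ((hβ _ _).1 haa)
  have hN : ∀ x : VV K, N (r x) = 0 := fun x => nm_res' q x
  have hproj : ∀ (x : VV K) (y : VV E), βE (r x) y = 0 → β x (N y) = 0 := by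
    intro x y h
    exact (hβ _ _).2 (proj' q ((hβE _ _).1 h))
  obtain ⟨w, hw⟩ : ∃ w : VV E, N w = n := range_nm' q ((hβ _ _).1 hn)
  have key : ∀ z' : VV E, N z' = ofMul a → ∃ m : VV E, N m = n ∧ βE z' m = 0 := by
    intro z' hz'
    have h1 := lift_sup h2 q ha hβ haa hβE symmE z' hz' (ht z' hz')
    obtain ⟨m, hm, r', ⟨x, rfl⟩, hmr⟩ := Submodule.mem_sup.1
      (show w ∈ LinearMap.ker (βE z') ⊔ LinearMap.range r by
        rw [h1]; exact Submodule.mem_top)
    refine ⟨m, ?_, hm⟩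
    rw [← hw, ← hmr, map_add, hN, add_zero]
  obtain ⟨n₁, hn₁, h₁⟩ := key z hz
  obtain ⟨n₂, hn₂, h₂⟩ := key (z + r v) (by rw [map_add, hz, hN, add_zero])
  obtain ⟨t, ht''⟩ : ∃ t : VV K, n₁ + n₂ = r t := ker_nm' q (by
    have : N (n₁ + n₂) = 0 := by rw [map_add, hn₁, hn₂, Codim.add_self]
    exact this)
  -- `res t ∪ z = n₂ ∪ res v`
  have h₃ : βE (r t) z = βE (r v) n₂ := by
    rw [← ht'', map_add, LinearMap.add_apply, symmE n₁ z, h₁, zero_add]
    rw [map_add, LinearMap.add_apply] at h₂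
    rw [symmE n₂ z]
    exact Codim.eq_of_add_eq_zero h₂
  obtain ⟨s, hs1, hs2⟩ := csE _ _ _ _ h₃
  rw [h₃] at hs1 hs2
  have e1 : β t (N s) = β t (ofMul a) := by
    have h4 := hproj t (s + z) (by rw [map_add, hs1, h₃, Codim.add_self])
    rw [map_add, map_add, hz] at h4
    exact Codim.eq_of_add_eq_zero h4
  have e2 : β v (N s) = β v n := by
    have h4 := hproj v (s + n₂) (by rw [map_add, hs2, Codim.add_self])
    rw [map_add, map_add, hn₂] at h4
    exact Codim.eq_of_add_eq_zero h4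
  have e3 : β t (N s) = β v (N s) := by
    have h4 := hproj (t + v) s (by
      rw [map_add, map_add, LinearMap.add_apply, hs1, hs2, Codim.add_self])
    rw [map_add, LinearMap.add_apply] at h4
    exact Codim.eq_of_add_eq_zero h4
  exact ⟨t, by rw [symm n v, ← e2, ← e3, e1, symm]⟩

end

/-- If `β n v ∈ V(u)` for all `n ∈ N(u)` then all ranks are at most twice the rank of `u`. -/
theorem rank_le_of_tangent {V Q : Type*} [AddCommGroup V] [Module (ZMod 2) V] [Finite V]
    [AddCommGroup Q] [Module (ZMod 2) Q] [Finite Q] (β : V →ₗ[ZMod 2] V →ₗ[ZMod 2] Q)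
    (symm : ∀ x y, β x y = β y x) (u : V)
    (ht : ∀ n, β u n = 0 → ∀ v, ∃ t, β n v = β u t) (x : V) :
    finrank (ZMod 2) (LinearMap.range (β x)) ≤ 2 * finrank (ZMod 2) (LinearMap.range (β u)) := by
  have h1 : (LinearMap.ker (β u)).map (β x) ≤ LinearMap.range (β u) := by
    rintro _ ⟨n, hn, rfl⟩
    obtain ⟨t, h⟩ := ht n hn x
    exact ⟨t, by rw [← h, symm]⟩
  have f1 := Submodule.finrank_mono h1
  have f2 := finrank_map_add_inf_ker (β x) (LinearMap.ker (β u))
  have f3 : finrank (ZMod 2) (LinearMap.ker (β u) ⊓ LinearMap.ker (β x) : Submodule (ZMod 2) V) ≤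
      finrank (ZMod 2) (LinearMap.ker (β x)) := Submodule.finrank_mono inf_le_right
  have f4 := LinearMap.finrank_range_add_finrank_ker (β x)
  have f5 := LinearMap.finrank_range_add_finrank_ker (β u)
  omega

end Pool.Agent.ETC92
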