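import Pool.Agent.ETC92.Step

/-!
# Towers over an exact pair
-/

namespace Pool.Agent.ETC92

open Pool.Agent.Hhelper2 Pool.Agent.Hhelper2.QuadExt Pool.Agent.Hhelper2.Tower Pool.Agent.KRad
open Additive Module Pool.Agent.GoReal

universe u

/-- The standing assumptions on a field. -/
structure Good1 (E : Type u) [Field E] : Prop where
  two : (2 : E) ≠ 0
  fin : Finite (SqClass E)
  neg : sqClass (-1 : Eˣ) = 1
  conn : Conn E

/-- A graded class of fields, containing `K` in degree zero and closed under adjoining the square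
root of a nonsquare. -/
structure TCl (K : Type u) [Field K] (T : ℕ → (E : Type u) → [Field E] → Prop) : Prop where
  base : T 0 K
  step : ∀ (n : ℕ) (E : Type u) [Field E], Good1 E → T n E → ∀ a : SqClass E, a ≠ 1 →
    ∃ (E' : Type u) (_ : Field E'), Nonempty (QS E E' a) ∧ T (n + 1) E'

/-- The lower bound for the number of square classes of the fields of the class given by an exact
pair `(K, u)`, where `r` is the rank of `u`. -/
def Exact1 (K : Type u) [Field K] (T : ℕ → (E : Type u) → [Field E] → Prop) (r : ℕ) : Prop :=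
  ∀ (n : ℕ) (E : Type u) [Field E], Good1 E → T n E → 2 ^ n * dd K + 1 ≤ dd E + 2 ^ n * (1 + r)

theorem Good1.ext {E E' : Type u} [Field E] [Field E'] {a : SqClass E} (h : Good1 E)
    (q : QS E E' a) (ha : a ≠ 1) : Good1 E' := by
  have := h.fin
  refine ⟨q.two_ne, finite_ext q.toQE, ?_, goUp q h.two h.conn ha⟩
  rw [← q.res_neg, h.neg, map_one]

theorem Good1.ee_eq {E : Type u} [Field E] (h : Good1 E) : ee E = 0 := h.neg

theorem Good1.sp_self {E : Type u} [Field E] (h : Good1 E) (x : VV E) : Sp E x x := by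
  have h1 := sp_neg h.two x
  rwa [h.ee_eq, add_zero] at h1

variable {K : Type u} [Field K] {T : ℕ → (E : Type u) → [Field E] → Prop}

/-- One step. -/
theorem TCl.next (hT : TCl K T) {n : ℕ} {E : Type u} [Field E] (hE : T n E) (hg : Good1 E)
    {x : VV E} (hx : x ≠ 0) :
    ∃ (E' : Type u) (_ : Field E') (q : QS E E' (toMul x)), T (n + 1) E' ∧ Good1 E' ∧
      dd E' + sv E x + 1 = 2 * dd E ∧ (∃ z : VV E', lin q.nm z = x) ∧
      ∀ z : VV E', lin q.nm z = x → z ≠ 0 ∧ sv E x ≤ sv E' z := by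
  have hx' : (toMul x : SqClass E) ≠ 1 := fun h => hx h
  obtain ⟨E', _, ⟨q⟩, hE'⟩ := hT.step n E hg hE (toMul x) hx'
  have := hg.fin
  refine ⟨E', inferInstance, q, hE', hg.ext q hx', finrank_ext hg.two q.toQE hx',
    range_nm' q.toQE (hg.sp_self x), ?_⟩
  intro z hz
  refine ⟨?_, ?_⟩
  · rintro rfl
    apply hx
    rw [← hz, map_zero]
  · have h3 := sv_nm_le hg.two q.toQE z
    rwa [hz] at h3

/-- Many steps. -/
theorem TCl.iter (hT : TCl K T) (m : ℕ) : ∀ (n : ℕ) (E : Type u) [Field E], T n E → Good1 E →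
    ∀ (x : VV E), x ≠ 0 → ∀ s : ℕ, s ≤ sv E x →
    ∃ (E' : Type u) (_ : Field E'), T (n + m) E' ∧ Good1 E' ∧
      dd E' + 2 ^ m * (1 + s) ≤ 2 ^ m * dd E + 1 + s := by
  induction m with
  | zero =>
    intro n E _ hE hg x hx s hs
    exact ⟨E, inferInstance, hE, hg, by omega⟩
  | succ m ih =>
    intro n E _ hE hg x hx s hs
    obtain ⟨E', _, q, hE', hg', hd, ⟨z, hz⟩, hall⟩ := hT.next hE hg hx
    obtain ⟨hz0, hsz⟩ := hall z hz
    obtain ⟨E₂, _, hE₂, hg₂, hd₂⟩ := ih (n + 1) E' hE' hg' z hz0 s (hs.trans hsz)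
    refine ⟨E₂, inferInstance, ?_, hg₂, ?_⟩
    · have e : n + (m + 1) = n + 1 + m := by omega
      rw [e]
      exact hE₂
    · have h1 : dd E' + s + 1 ≤ 2 * dd E := by omega
      have h3 : 2 ^ m * (dd E' + s + 1) ≤ 2 ^ m * (2 * dd E) := Nat.mul_le_mul_left _ h1
      have e1 : 2 ^ m * (dd E' + s + 1) = 2 ^ m * dd E' + 2 ^ m * (1 + s) := by ring
      have e2 : 2 ^ (m + 1) * (1 + s) = 2 ^ m * (1 + s) + 2 ^ m * (1 + s) := by ring
      have e3 : 2 ^ (m + 1) * dd E = 2 ^ m * (2 * dd E) := by ring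
      omega

/-- A field in which exactness persists. -/
structure Ex (T : ℕ → (E : Type u) → [Field E] → Prop) (d r n : ℕ) (E : Type u) [Field E]
    (x : VV E) : Prop where
  mem : T n E
  good : Good1 E
  ne : x ≠ 0
  sv_eq : sv E x = r
  dd_eq : dd E + 2 ^ n * (1 + r) = 2 ^ n * d + 1 + r

theorem Ex.next (hT : TCl K T) {r : ℕ} (hex : Exact1 K T r) {n : ℕ} {E : Type u} [Field E]
    {x : VV E} (h : Ex T (dd K) r n E x) :
    ∃ (E' : Type u) (_ : Field E') (q : QS E E' (toMul x)),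
      (∃ z : VV E', lin q.nm z = x) ∧
      ∀ z : VV E', lin q.nm z = x → Ex T (dd K) r (n + 1) E' z := by
  obtain ⟨E', _, q, hE', hg', hd, hz, hall⟩ := hT.next h.mem h.good h.ne
  refine ⟨E', inferInstance, q, hz, ?_⟩
  intro z hz
  obtain ⟨hz0, hsz⟩ := hall z hz
  rw [h.sv_eq] at hd hsz
  have hdd := h.dd_eq
  have hdd' : dd E' + 2 ^ (n + 1) * (1 + r) = 2 ^ (n + 1) * dd K + 1 + r := by
    have e1 : 2 ^ (n + 1) * (1 + r) = 2 * (2 ^ n * (1 + r)) := by ring
    have e2 : 2 ^ (n + 1) * dd K = 2 * (2 ^ n * dd K) := by ring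
    omega
  refine ⟨hE', hg', hz0, ?_, hdd'⟩
  by_contra hne
  have hlt : r + 1 ≤ sv E' z := by omega
  obtain ⟨E₂, _, hE₂, hg₂, hd₂⟩ := hT.iter (r + 1) (n + 1) E' hE' hg' z hz0 (r + 1) hlt
  have h3 := hex _ _ hg₂ hE₂
  have h4 : r + 1 < 2 ^ (r + 1) := Nat.lt_two_pow_self
  have e1 : 2 ^ (n + 1 + (r + 1)) * dd K = 2 ^ (r + 1) * (2 ^ (n + 1) * dd K) := by ring
  have e2 : 2 ^ (n + 1 + (r + 1)) * (1 + r) = 2 ^ (r + 1) * (2 ^ (n + 1) * (1 + r)) := by ring
  have e3 : 2 ^ (r + 1) * (dd E' + 2 ^ (n + 1) * (1 + r)) =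
      2 ^ (r + 1) * (2 ^ (n + 1) * dd K + 1 + r) := by rw [hdd']
  have e4 : 2 ^ (r + 1) * (dd E' + 2 ^ (n + 1) * (1 + r)) =
      2 ^ (r + 1) * dd E' + 2 ^ (r + 1) * (2 ^ (n + 1) * (1 + r)) := by ring
  have e5 : 2 ^ (r + 1) * (2 ^ (n + 1) * dd K + 1 + r) =
      2 ^ (r + 1) * (2 ^ (n + 1) * dd K) + 2 ^ (r + 1) * (1 + r) := by ring
  have e6 : 2 ^ (r + 1) * (1 + (r + 1)) = 2 ^ (r + 1) * (1 + r) + 2 ^ (r + 1) := by ring
  omega

/-- All ranks are at most twice the rank of the exact class. -/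
theorem Ex.sv_le (hT : TCl K T) {r : ℕ} (hex : Exact1 K T r) {n : ℕ} {E : Type u} [Field E]
    {x : VV E} (h : Ex T (dd K) r n E x) (y : VV E) : sv E y ≤ 2 * r := by
  obtain ⟨E', _, q, hz, hall⟩ := h.next hT hex
  have := h.good.fin
  have : Finite (VV E) := inferInstanceAs (Finite (SqClass E))
  obtain ⟨Q, _, _, _, β, hβ, symm, -⟩ := exists_symbol E h.good.two
  have hx' : (toMul x : SqClass E) ≠ 1 := fun h' => h.ne h'
  have haa : β x x = 0 := (hβ _ _).2 (h.good.sp_self x)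
  have h3 := tangent h.good.two q.toQE hx' hβ symm haa
    (fun z hz => by
      have h4 := (hall z hz).sv_eq
      have h5 : sv E x = r := h.sv_eq
      have h6 : sv E (ofMul (toMul x)) = r := h5
      omega)
  have h4 := rank_le_of_tangent β symm x h3 y
  rw [← sv_eq_finrank_range β hβ, ← sv_eq_finrank_range β hβ, h.sv_eq] at h4
  exact h4

/-- Exact classes exist in all degrees. -/
theorem exists_ex (hT : TCl K T) (hg : Good1 K) {x : VV K} (hx : x ≠ 0)
    (hex : Exact1 K T (sv K x)) (n : ℕ) :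
    ∃ (E : Type u) (_ : Field E) (z : VV E), Ex T (dd K) (sv K x) n E z := by
  induction n with
  | zero => exact ⟨K, inferInstance, x, hT.base, hg, hx, rfl, by ring⟩
  | succ n ih =>
    obtain ⟨E, _, z, hz⟩ := ih
    obtain ⟨E', _, q, ⟨z', hz'⟩, hall⟩ := hz.next hT hex
    exact ⟨E', inferInstance, z', hall z' hz'⟩

end Pool.Agent.ETC92
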